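import Pool.Agent.Work.MP_81f94f_an.Defs

set_option autoImplicit false

namespace Pool.Agent.Work.N81f94f

open MeasureTheory Set
open scoped ENNReal

/-! ### Complex measures have finite variation and a density -/

theorem variation_le_re_im {X : Type*} [MeasurableSpace X] (ν : ComplexMeasure X) :
    ν.variation ≤ ν.re.variation + ν.im.variation := by
  refine VectorMeasure.variation_le_of_forall_enorm_le (fun E hE => ?_)
  have h1 : ‖ν E‖ₑ ≤ ‖(ν.re E : ℝ)‖ₑ + ‖(ν.im E : ℝ)‖ₑ := by
    have h2 : ν E = ((ν.re E : ℝ) : ℂ) + ((ν.im E : ℝ) : ℂ) * Complex.I := by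
      change ν E = (((ν E).re : ℝ) : ℂ) + (((ν E).im : ℝ) : ℂ) * Complex.I
      rw [Complex.re_add_im]
    rw [h2]
    refine (enorm_add_le _ _).trans ?_
    gcongr
    · rw [← ofReal_norm, ← ofReal_norm, Complex.norm_real]
    · rw [← ofReal_norm, ← ofReal_norm, norm_mul, Complex.norm_I, mul_one,
        Complex.norm_real]
  refine h1.trans ?_
  rw [Measure.add_apply]
  exact add_le_add (VectorMeasure.enorm_measure_le_variation _ _)
    (VectorMeasure.enorm_measure_le_variation _ _)

instance finVar {X : Type*} [MeasurableSpace X] (ν : ComplexMeasure X) :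
    IsFiniteMeasure ν.variation := by
  have h1 : IsFiniteMeasure (ComplexMeasure.re ν).variation := by
    rw [← SignedMeasure.totalVariation_eq_variation]; infer_instance
  have h2 : IsFiniteMeasure (ComplexMeasure.im ν).variation := by
    rw [← SignedMeasure.totalVariation_eq_variation]; infer_instance
  exact isFiniteMeasure_of_le _ (variation_le_re_im ν)

theorem exists_rep {X : Type*} [MeasurableSpace X] (ν : ComplexMeasure X) :
    ∃ (μ : Measure X) (h : X → ℂ), IsFiniteMeasure μ ∧ Integrable h μ ∧ ν = μ.withDensityᵥ h := by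
  set μ : Measure X := (ComplexMeasure.re ν).totalVariation + (ComplexMeasure.im ν).totalVariation
    with hμ
  have hr : (ComplexMeasure.re ν) ≪ᵥ μ.toENNRealVectorMeasure := by
    rw [SignedMeasure.absolutelyContinuous_ennreal_iff]
    have : μ.toENNRealVectorMeasure.ennrealToMeasure = μ := VectorMeasure.equivMeasure.right_inv μ
    rw [this]
    exact Measure.absolutelyContinuous_of_le (Measure.le_add_right le_rfl)
  have hi : (ComplexMeasure.im ν) ≪ᵥ μ.toENNRealVectorMeasure := by
    rw [SignedMeasure.absolutelyContinuous_ennreal_iff]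
    have : μ.toENNRealVectorMeasure.ennrealToMeasure = μ := VectorMeasure.equivMeasure.right_inv μ
    rw [this]
    exact Measure.absolutelyContinuous_of_le (Measure.le_add_left le_rfl)
  refine ⟨μ, ν.rnDeriv μ, inferInstance, ν.integrable_rnDeriv μ, ?_⟩
  have hir := ν.integrable_rnDeriv μ
  ext i hi' : 1
  rw [withDensityᵥ_apply hir hi']
  apply Complex.ext
  · have h1 := SignedMeasure.withDensityᵥ_rnDeriv_eq (ComplexMeasure.re ν) μ hr
    have h2 : ((ComplexMeasure.re ν) i : ℝ) = (ν i).re := rfl
    rw [← h2]
    conv_lhs => rw [← h1]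
    rw [withDensityᵥ_apply (SignedMeasure.integrable_rnDeriv _ _) hi']
    have h3 := integral_re (μ := μ.restrict i) hir.integrableOn
    exact h3
  · have h1 := SignedMeasure.withDensityᵥ_rnDeriv_eq (ComplexMeasure.im ν) μ hi
    have h2 : ((ComplexMeasure.im ν) i : ℝ) = (ν i).im := rfl
    rw [← h2]
    conv_lhs => rw [← h1]
    rw [withDensityᵥ_apply (SignedMeasure.integrable_rnDeriv _ _) hi']
    have h3 := integral_im (μ := μ.restrict i) hir.integrableOn
    exact h3

end Pool.Agent.Work.N81f94f
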