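import Pool.Agent.Work.MP_81f94f_an.Main

set_option autoImplicit false

namespace Pool.Agent.Work.N81f94f

open MeasureTheory Set Filter
open scoped ENNReal Topology

theorem half_of_eq {μ : ComplexMeasure ℝ} (hμ : μ ∈ M01) {ω : ℕ → ℝ} (hpos : ∀ n, 1 ≤ n → 0 < ω n)
    (hn : ∀ n, 1 ≤ n → (tpow μ n).variation univ = ENNReal.ofReal (ω n)) {n : ℕ} (h1 : 1 ≤ n)
    (h2 : ω (2 * n) = ω n ^ 2) : (tpow μ n).variation (Ioo 0 (1/2))ᶜ = 0 := by
  refine half_support (tpow_mem hμ h1) ?_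
  rw [← tpow_double hμ h1, hn _ h1, hn (2*n) (by omega), h2, pow_two,
    ENNReal.ofReal_mul (hpos n h1).le]

theorem tconv_eq_cconv {x y : ComplexMeasure ℝ} (hx : x.variation (Ioo 0 (1/2))ᶜ = 0)
    (hy : y.variation (Ioo 0 (1/2))ᶜ = 0) : tconv x y = cconv x y := by
  unfold tconv
  refine restrict_of_var_compl measurableSet_Ioo (cconv_support measurableSet_Ioo hx hy ?_)
  intro a ha b hb
  exact ⟨by linarith [ha.1, hb.1], by linarith [ha.2, hb.2]⟩

theorem CS_of_half {x : ComplexMeasure ℝ} (hx : x.variation (Ioo 0 (1/2))ᶜ = 0) : CS x (1/2) :=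
  measure_mono_null (compl_subset_compl.2 Ioo_subset_Icc_self) hx

theorem block {μ : ComplexMeasure ℝ} (hμ : μ ∈ M01) {ω : ℕ → ℝ} (hpos : ∀ n, 1 ≤ n → 0 < ω n)
    (hn : ∀ n, 1 ≤ n → (tpow μ n).variation univ = ENNReal.ofReal (ω n))
    (h2 : ω 2 = ω 1 ^ 2) {n : ℕ} (h1 : 1 ≤ n)
    (hb : ∀ i, n ≤ i → i ≤ 2 * n → ω (2 * i) = ω i ^ 2) :
    μ.variation (Ioi (1 / (2 * (n:ℝ)))) = 0 := by
  have hhalf : μ.variation (Ioo 0 (1/2))ᶜ = 0 := half_of_eq hμ hpos hn (n := 1) le_rfl h2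
  have hsup : ∀ i, n ≤ i → i ≤ 2 * n → (tpow μ i).variation (Ioo 0 (1/2))ᶜ = 0 := by
    intro i hi1 hi2
    exact half_of_eq hμ hpos hn (by omega) (hb i hi1 hi2)
  have hstep : ∀ j, j ≤ n → ∀ z, Lap (tpow μ (n + j)) z = Lap (tpow μ n) z * Lap μ z ^ j := by
    intro j
    induction' j with j ih
    · intro _ z; simp
    · intro hj z
      obtain ⟨k, hk⟩ : ∃ k, n + j = k + 1 := ⟨n + j - 1, by omega⟩
      have h3 : tpow μ (n + (j+1)) = cconv (tpow μ (n + j)) μ := by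
        have h4 : n + (j + 1) = k + 2 := by omega
        rw [h4]
        change tconv (tpow μ (k+1)) μ = _
        rw [← hk]
        exact tconv_eq_cconv (hsup _ (by omega) (by omega)) hhalf
      rw [h3, Lap_cconv (CS_of_half (hsup _ (by omega) (by omega))) (CS_of_half hhalf),
        ih (by omega)]
      ring
  have hdouble : ∀ z, Lap (tpow μ (2 * n)) z = Lap (tpow μ n) z * Lap (tpow μ n) z := by
    intro z
    rw [tpow_double hμ h1, tconv_eq_cconv (hsup n le_rfl (by omega)) (hsup n le_rfl (by omega)),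
      Lap_cconv (CS_of_half (hsup n le_rfl (by omega))) (CS_of_half (hsup n le_rfl (by omega)))]
  have hd1 : Differentiable ℂ (Lap (tpow μ n)) :=
    Lap_differentiable (CS_of_half (hsup n le_rfl (by omega)))
  have hd2 : Differentiable ℂ (Lap μ) := Lap_differentiable (CS_of_half hhalf)
  have hprod : ∀ z ∈ (univ : Set ℂ),
      Lap (tpow μ n) z * (Lap μ z ^ n - Lap (tpow μ n) z) = 0 := by
    intro z _
    have h3 := hstep n le_rfl z
    rw [← two_mul, hdouble z] at h3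
    rw [mul_sub, ← h3, sub_self]
  have han1 : AnalyticOnNhd ℂ (Lap (tpow μ n)) univ := fun z _ => hd1.analyticAt z
  have han2 : AnalyticOnNhd ℂ (fun z => Lap μ z ^ n - Lap (tpow μ n) z) univ :=
    fun z _ => ((hd2.pow n).sub hd1).analyticAt z
  have hne : tpow μ n ≠ 0 := by
    intro h0
    have h3 := hn n h1
    rw [h0, VectorMeasure.variation_zero] at h3
    have h4 := ENNReal.ofReal_pos.2 (hpos n h1)
    rw [← h3] at h4
    simp at h4
  have hkey : ∀ z, Lap μ z ^ n = Lap (tpow μ n) z := by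
    rcases AnalyticOnNhd.eq_zero_or_eq_zero_of_mul_eq_zero han1 han2 hprod isPreconnected_univ
      with h3 | h3
    · exfalso
      exact hne (eq_zero_of_Lap (fun t => h3 _ (mem_univ _)))
    · intro z
      exact sub_eq_zero.1 (h3 z (mem_univ z))
  set K := max ((tpow μ n).variation univ).toReal 1 with hK
  have hK1 : 1 ≤ K := le_max_right _ _
  have hnpos : (0:ℝ) < n := by exact_mod_cast h1
  refine support_of_bound (C := K) (by positivity)
    ((CS_of_half hhalf).mono (by norm_num)) ?_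
  intro z hz
  have h3 := Lap_bound (α := 0) (β := 1/2) (CS_of_half (hsup n le_rfl (by omega))) z
  rw [← hkey z, norm_pow] at h3
  have h4 : max (-(z.re * 0)) (-(z.re * (1/2))) = -(z.re * (1/2)) := by
    rw [max_eq_right]
    linarith
  rw [h4] at h3
  have h5 : ‖Lap μ z‖ ^ n ≤ (K * Real.exp (-(z.re * (1 / (2 * (n:ℝ)))))) ^ n := by
    refine h3.trans ?_
    rw [mul_pow, ← Real.exp_nat_mul]
    have h6 : (n:ℝ) * -(z.re * (1 / (2 * (n:ℝ)))) = -(z.re * (1/2)) := by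
      field_simp
    rw [h6]
    refine mul_le_mul_of_nonneg_right ?_ (Real.exp_pos _).le
    refine (le_max_left _ 1).trans ?_
    exact le_self_pow₀ hK1 (by omega)
  exact le_of_pow_le_pow_left₀ (by omega) (by positivity) h5

theorem criterion {ω : ℕ → ℝ} (hpos : ∀ n, 1 ≤ n → 0 < ω n) (h2 : ω 2 = ω 1 ^ 2)
    (hb : ∀ N : ℕ, ∃ n, N ≤ n ∧ ∀ i, n ≤ i → i ≤ 2 * n → ω (2 * i) = ω i ^ 2) :
    ¬ ∃ μ ∈ M01, ∀ n, 1 ≤ n → (tpow μ n).variation univ = ENNReal.ofReal (ω n) := by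
  rintro ⟨μ, hμ, hn⟩
  have hv := var_compl_of_restrict (measurableSet_Ioo (a := (0:ℝ)) (b := 1)) hμ
  have h3 : μ.variation (⋃ N : ℕ, Ioi (1 / ((N:ℝ) + 1))) = 0 := by
    refine measure_iUnion_null (fun N => ?_)
    obtain ⟨n, hn1, hn2⟩ := hb (N + 1)
    have h4 := block hμ hpos hn h2 (n := n) (by omega) hn2
    refine measure_mono_null (Ioi_subset_Ioi ?_) h4
    have h5 : ((N:ℝ) + 1) ≤ n := by exact_mod_cast hn1
    refine one_div_le_one_div_of_le (by positivity) ?_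
    linarith
  have h4 : μ.variation univ = 0 := by
    refine measure_mono_null (t := (Ioo 0 1)ᶜ ∪ ⋃ N : ℕ, Ioi (1 / ((N:ℝ) + 1))) ?_
      (measure_union_null hv h3)
    intro x _
    by_cases hx : x ∈ Ioo (0:ℝ) 1
    · right
      obtain ⟨N, hN⟩ := exists_nat_one_div_lt hx.1
      exact mem_iUnion.2 ⟨N, hN⟩
    · left; exact hx
  have h5 := hn 1 le_rfl
  change μ.variation univ = _ at h5
  rw [h4] at h5
  have h6 := ENNReal.ofReal_pos.2 (hpos 1 le_rfl)
  rw [← h5] at h6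
  exact lt_irrefl _ h6

end Pool.Agent.Work.N81f94f
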