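import Mathlib

set_option autoImplicit false

namespace Pool.Agent.Work.N81f94f

open MeasureTheory Set

/-- The (untruncated) convolution of two complex Borel measures on the line:
the image of the product measure under addition. -/
noncomputable def cconv (μ ν : ComplexMeasure ℝ) : ComplexMeasure ℝ :=
  (μ.prod ν (ContinuousLinearMap.mul ℝ ℂ)).map (fun p : ℝ × ℝ => p.1 + p.2)

/-- The convolution truncated to `(0,1)`. -/
noncomputable def tconv (μ ν : ComplexMeasure ℝ) : ComplexMeasure ℝ :=
  (cconv μ ν).restrict (Ioo 0 1)

/-- The space `M(0,1)` of complex Borel measures on `(0,1)`, realised as the complex Borel measures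
on the line which live on `(0,1)`. -/
def M01 : Set (ComplexMeasure ℝ) := {μ | μ.restrict (Ioo 0 1) = μ}

/-- The powers of a measure for the truncated convolution (the value at `0` is a placeholder). -/
noncomputable def tpow (μ : ComplexMeasure ℝ) : ℕ → ComplexMeasure ℝ
  | 0 => 0
  | 1 => μ
  | (n+2) => tconv (tpow μ (n+1)) μ

/-- The truncated convolution of functions on `[0,1]`. -/
noncomputable def fconv (f g : ℝ → ℂ) : ℝ → ℂ := fun t => ∫ s in (0:ℝ)..t, f (t - s) * g s

/-- The powers of a function for the truncated convolution (the value at `0` is a placeholder). -/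
noncomputable def fpow (f : ℝ → ℂ) : ℕ → ℝ → ℂ
  | 0 => 0
  | 1 => f
  | (n+2) => fconv (fpow f (n+1)) f

end Pool.Agent.Work.N81f94f
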