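import Pool.Agent.Work.MP_81f94f_an.Lap

set_option autoImplicit false

namespace Pool.Agent.Work.N81f94f

open MeasureTheory Set Filter
open scoped ENNReal Topology

theorem Lap_differentiable {ν : ComplexMeasure ℝ} {L : ℝ} (h : CS ν L) :
    Differentiable ℂ (Lap ν) := by
  obtain ⟨m, g, _, hg, rfl⟩ := exists_rep ν
  have hrep : ∀ z, Lap (m.withDensityᵥ g) z = ∫ x : ℝ, Complex.exp (-(z * x)) * g x ∂m := by
    intro z
    exact cint_withDensity hg (integrable_exp h z)
  have hsup : ∀ᵐ x ∂m, g x ≠ 0 → x ∈ Icc (0:ℝ) L := by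
    have h1 := h.ae
    rw [variation_rep hg, ae_withDensity_iff' hg.aestronglyMeasurable.enorm] at h1
    filter_upwards [h1] with x hx hx0
    exact hx (by simpa using hx0)
  intro z₀
  have hL : 0 ≤ |L| := abs_nonneg L
  have key := hasDerivAt_integral_of_dominated_loc_of_deriv_le (μ := m) (𝕜 := ℂ)
    (F := fun z (x : ℝ) => Complex.exp (-(z * x)) * g x)
    (F' := fun z (x : ℝ) => (-(x:ℂ)) * Complex.exp (-(z * x)) * g x)
    (x₀ := z₀) (s := Metric.ball z₀ 1)
    (bound := fun x => |L| * Real.exp ((|z₀.re| + 1) * |L|) * ‖g x‖)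
    (Metric.ball_mem_nhds z₀ one_pos) ?_ ?_ ?_ ?_ ?_ ?_
  · have h2 : Lap (m.withDensityᵥ g) = fun z => ∫ x : ℝ, Complex.exp (-(z * x)) * g x ∂m :=
      funext hrep
    rw [h2]
    exact key.2.differentiableAt
  · filter_upwards with z
    exact (meas_exp z).aestronglyMeasurable.mul hg.aestronglyMeasurable
  · exact integrable_mul_of_variation hg (integrable_exp h z₀)
  · exact ((by fun_prop : Measurable (fun x : ℝ => (-(x:ℂ)) * Complex.exp (-(z₀ * x)))).aestronglyMeasurable).mul
      hg.aestronglyMeasurable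
  · filter_upwards [hsup] with x hx z hz
    by_cases h0 : g x = 0
    · simp [h0]
    · have hx' := hx h0
      have hLL : L = |L| := (abs_of_nonneg (hx'.1.trans hx'.2)).symm
      rw [norm_mul, norm_mul, norm_neg, Complex.norm_real, Real.norm_eq_abs, abs_of_nonneg hx'.1]
      have hz' : |z.re| ≤ |z₀.re| + 1 := by
        have h3 : ‖z - z₀‖ < 1 := by rwa [Metric.mem_ball, dist_eq_norm] at hz
        have h4 := Complex.abs_re_le_norm (z - z₀)
        rw [Complex.sub_re] at h4
        have h5 := abs_sub_abs_le_abs_sub z.re z₀.re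
        linarith
      have h6 : ‖Complex.exp (-(z * x))‖ ≤ Real.exp ((|z₀.re| + 1) * |L|) := by
        refine (exp_bound z hx').trans (Real.exp_le_exp.2 ?_)
        rw [← hLL]
        exact mul_le_mul_of_nonneg_right hz' (hx'.1.trans hx'.2)
      have h7 : x ≤ |L| := by rw [← hLL]; exact hx'.2
      gcongr
  · exact hg.norm.const_mul _
  · filter_upwards with x z _
    have h8 : HasDerivAt (fun z : ℂ => Complex.exp (-(z * x))) (Complex.exp (-(z * x)) * (-(1 * (x:ℂ)))) z :=
      (((hasDerivAt_id z).mul_const (x:ℂ)).neg).cexp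
    have h9 := h8.mul_const (g x)
    exact h9.congr_deriv (by ring)

/-- The size of the transform. -/
theorem Lap_norm_le (ν : ComplexMeasure ℝ) (z : ℂ) :
    ‖Lap ν z‖ₑ ≤ ∫⁻ x : ℝ, ENNReal.ofReal (Real.exp (-(z.re * x))) ∂ν.variation := by
  unfold Lap cint
  refine (VectorMeasure.enorm_integral_le_lintegral_enorm).trans ?_
  have h1 : ‖ContinuousLinearMap.mul ℝ ℂ‖ₑ ≤ 1 := by
    rw [← ofReal_norm, ← ENNReal.ofReal_one]
    exact ENNReal.ofReal_le_ofReal (ContinuousLinearMap.opNorm_mul_le ℝ ℂ)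
  calc _ ≤ 1 * ∫⁻ x : ℝ, ‖Complex.exp (-(z * x))‖ₑ ∂ν.variation := by gcongr
    _ = _ := by
      rw [one_mul]
      refine lintegral_congr (fun x => ?_)
      rw [← ofReal_norm, norm_exp_eq]

/-- If the measure lives on `[α, β]` the transform is bounded by an exponential. -/
theorem Lap_bound {ν : ComplexMeasure ℝ} {α β : ℝ} (h : ν.variation (Icc α β)ᶜ = 0) (z : ℂ) :
    ‖Lap ν z‖ ≤ (ν.variation univ).toReal * Real.exp (max (-(z.re * α)) (-(z.re * β))) := by
  have h1 : ‖Lap ν z‖ₑ ≤ ν.variation univ *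
      ENNReal.ofReal (Real.exp (max (-(z.re * α)) (-(z.re * β)))) := by
    refine (Lap_norm_le ν z).trans ?_
    have h2 : ∀ᵐ x ∂ν.variation, ENNReal.ofReal (Real.exp (-(z.re * x))) ≤
        ENNReal.ofReal (Real.exp (max (-(z.re * α)) (-(z.re * β)))) := by
      have h3 : ∀ᵐ x ∂ν.variation, x ∈ Icc α β := by rw [ae_iff]; exact h
      filter_upwards [h3] with x hx
      refine ENNReal.ofReal_le_ofReal (Real.exp_le_exp.2 ?_)
      rcases le_total 0 z.re with h0 | h0
      · refine le_trans ?_ (le_max_left _ _)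
        have := mul_le_mul_of_nonneg_left hx.1 h0
        linarith
      · refine le_trans ?_ (le_max_right _ _)
        have := mul_le_mul_of_nonpos_left hx.2 h0
        linarith
    refine (lintegral_mono_ae h2).trans ?_
    rw [lintegral_const, mul_comm]
  have h4 := ENNReal.toReal_mono (ENNReal.mul_ne_top (measure_ne_top _ _) ENNReal.ofReal_ne_top) h1
  rwa [ENNReal.toReal_mul, ENNReal.toReal_ofReal (Real.exp_pos _).le, toReal_enorm] at h4

theorem Lap_split {ν : ComplexMeasure ℝ} {L : ℝ} (h : CS ν L) {s : Set ℝ} (hs : MeasurableSet s)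
    (z : ℂ) : Lap ν z = Lap (ν.restrict s) z + Lap (ν.restrict sᶜ) z := by
  unfold Lap cint
  exact (VectorMeasure.setIntegral_add_compl hs (integrable_exp h z)).symm

/-- A measure whose transform has small type in the left half plane lives near `0`. -/
theorem support_of_bound {ν : ComplexMeasure ℝ} {τ : ℝ} (hτ : 0 < τ) (hν : CS ν 1) {C : ℝ}
    (hC : ∀ z : ℂ, z.re ≤ 0 → ‖Lap ν z‖ ≤ C * Real.exp (-(z.re * τ))) :
    ν.variation (Ioi τ) = 0 := by
  set ν1 := ν.restrict (Ioi τ) with hν1
  set ν0 := ν.restrict (Ioi τ)ᶜ with hν0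
  have hv1 : ν1.variation = ν.variation.restrict (Ioi τ) :=
    VectorMeasure.variation_restrict measurableSet_Ioi
  have hv0 : ν0.variation = ν.variation.restrict (Ioi τ)ᶜ :=
    VectorMeasure.variation_restrict measurableSet_Ioi.compl
  have hs1 : ν1.variation (Icc τ 1)ᶜ = 0 := by
    rw [hv1, Measure.restrict_apply measurableSet_Icc.compl]
    refine measure_mono_null (fun x hx => ?_) hν
    intro hc
    exact hx.1 ⟨le_of_lt hx.2, hc.2⟩
  have hs1' : CS ν1 1 := by
    refine measure_mono_null (compl_subset_compl.2 (Icc_subset_Icc_left hτ.le)) hs1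
  have hs0 : ν0.variation (Icc 0 τ)ᶜ = 0 := by
    rw [hv0, Measure.restrict_apply measurableSet_Icc.compl]
    refine measure_mono_null (fun x hx => ?_) hν
    intro hc
    have : x ≤ τ := not_lt.1 hx.2
    exact hx.1 ⟨hc.1, this⟩
  have hsplit : ∀ z, Lap ν z = Lap ν1 z + Lap ν0 z := fun z => Lap_split hν measurableSet_Ioi z
  set C1 := (ν1.variation univ).toReal with hC1
  set C0 := (ν0.variation univ).toReal with hC0
  have hC1' : 0 ≤ C1 := ENNReal.toReal_nonneg
  have hC0' : 0 ≤ C0 := ENNReal.toReal_nonneg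
  set G : ℂ → ℂ := fun z => Complex.exp (z * τ) * Lap ν1 z with hG
  have hGd : Differentiable ℂ G := by
    refine Differentiable.mul ?_ (Lap_differentiable hs1')
    exact ((differentiable_id.mul_const _).cexp)
  have hexpn : ∀ z : ℂ, ‖Complex.exp (z * τ)‖ = Real.exp (z.re * τ) := by
    intro z; rw [Complex.norm_exp]; simp
  have hCC : 0 ≤ C := by
    have := hC 0 (by simp)
    have h2 : (0:ℝ) ≤ ‖Lap ν 0‖ := norm_nonneg _
    simp at this
    linarith
  have hGb : ∀ z, ‖G z‖ ≤ C1 + C0 + C := by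
    intro z
    rw [hG]
    simp only
    rw [norm_mul, hexpn]
    rcases le_total 0 z.re with h0 | h0
    · have h1 := Lap_bound hs1 z
      have h3 : ‖Lap ν1 z‖ ≤ C1 * Real.exp (-(z.re * τ)) := by
        by_cases hle : τ ≤ 1
        · refine h1.trans (le_of_eq ?_)
          rw [max_eq_left]
          have := mul_le_mul_of_nonneg_left hle h0
          linarith
        · have hz : ν1.variation univ = 0 := by
            have h4 : (Icc τ 1 : Set ℝ) = ∅ := Icc_eq_empty hle
            rw [h4, compl_empty] at hs1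
            exact hs1
          have hz' : C1 = 0 := by rw [hC1, hz]; rfl
          rw [← hC1, hz', zero_mul] at h1
          rw [hz', zero_mul]
          exact h1
      calc Real.exp (z.re * τ) * ‖Lap ν1 z‖ ≤ Real.exp (z.re * τ) * (C1 * Real.exp (-(z.re * τ))) := by
            gcongr
        _ = C1 := by
            rw [mul_comm, mul_assoc, ← Real.exp_add]; simp
        _ ≤ C1 + C0 + C := by linarith
    · have h1 := Lap_bound hs0 z
      have h2 : max (-(z.re * 0)) (-(z.re * τ)) = -(z.re * τ) := by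
        rw [max_eq_right]
        have := mul_nonpos_of_nonpos_of_nonneg h0 hτ.le
        linarith
      rw [h2] at h1
      have h3 : Lap ν1 z = Lap ν z - Lap ν0 z := by rw [hsplit z]; ring
      have h4 : ‖Lap ν1 z‖ ≤ (C + C0) * Real.exp (-(z.re * τ)) := by
        rw [h3]
        refine (norm_sub_le _ _).trans ?_
        rw [add_mul]
        exact add_le_add (hC z h0) h1
      calc Real.exp (z.re * τ) * ‖Lap ν1 z‖ ≤ Real.exp (z.re * τ) * ((C + C0) * Real.exp (-(z.re * τ))) := by
            gcongr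
        _ = C + C0 := by
            rw [mul_comm, mul_assoc, ← Real.exp_add]; simp
        _ ≤ C1 + C0 + C := by linarith
  have hconst : ∀ z w, G z = G w := by
    intro z w
    refine hGd.apply_eq_apply_of_bounded ?_ z w
    rw [isBounded_iff_forall_norm_le]
    exact ⟨C1 + C0 + C, by rintro _ ⟨z, rfl⟩; exact hGb z⟩
  -- `G → 0` along the positive reals
  have hlim : Tendsto (fun n : ℕ => ∫⁻ x : ℝ, ENNReal.ofReal (Real.exp (n * (τ - x))) ∂ν1.variation)
      atTop (𝓝 0) := by
    have h1 : (∫⁻ x : ℝ, 0 ∂ν1.variation) = 0 := lintegral_zero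
    rw [← h1]
    have hae : ∀ᵐ x ∂ν1.variation, x ∈ Ioi τ := by
      rw [hv1]
      exact ae_restrict_mem measurableSet_Ioi
    refine tendsto_lintegral_of_dominated_convergence (fun _ => 1) ?_ ?_ ?_ ?_
    · intro n; fun_prop
    · intro n
      filter_upwards [hae] with x hx
      rw [← ENNReal.ofReal_one]
      refine ENNReal.ofReal_le_ofReal ?_
      rw [Real.exp_le_one_iff]
      have : τ < x := hx
      have hn : (0:ℝ) ≤ n := Nat.cast_nonneg n
      nlinarith
    · rw [lintegral_const, one_mul]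
      exact measure_ne_top _ _
    · filter_upwards [hae] with x hx
      have hx' : τ - x < 0 := by have : τ < x := hx; linarith
      have h2 : Tendsto (fun n : ℕ => Real.exp (n * (τ - x))) atTop (𝓝 0) := by
        refine Real.tendsto_exp_atBot.comp ?_
        exact (tendsto_natCast_atTop_atTop).atTop_mul_const_of_neg hx'
      have h3 := ENNReal.tendsto_ofReal h2
      rwa [ENNReal.ofReal_zero] at h3
  have hGn : ∀ n : ℕ, ‖G n‖ₑ ≤ ∫⁻ x : ℝ, ENNReal.ofReal (Real.exp (n * (τ - x))) ∂ν1.variation := by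
    intro n
    rw [hG]
    simp only
    rw [enorm_mul]
    have h1 := Lap_norm_le ν1 n
    have h2 : ‖Complex.exp ((n:ℂ) * τ)‖ₑ = ENNReal.ofReal (Real.exp (n * τ)) := by
      rw [← ofReal_norm, hexpn]; simp
    rw [h2]
    calc ENNReal.ofReal (Real.exp (n * τ)) * ‖Lap ν1 n‖ₑ
        ≤ ENNReal.ofReal (Real.exp (n * τ)) *
          ∫⁻ x : ℝ, ENNReal.ofReal (Real.exp (-((n:ℂ).re * x))) ∂ν1.variation := by gcongr
      _ = ∫⁻ x : ℝ, ENNReal.ofReal (Real.exp (n * (τ - x))) ∂ν1.variation := by
          rw [← lintegral_const_mul' _ _ ENNReal.ofReal_ne_top]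
          refine lintegral_congr (fun x => ?_)
          rw [← ENNReal.ofReal_mul (Real.exp_pos _).le, ← Real.exp_add]
          congr 2
          simp
          ring
  have hG0 : ∀ z, G z = 0 := by
    intro z
    have h1 : ∀ n : ℕ, ‖G z‖ₑ ≤
        ∫⁻ x : ℝ, ENNReal.ofReal (Real.exp (n * (τ - x))) ∂ν1.variation := by
      intro n
      rw [hconst z n]
      exact hGn n
    have h2 : ‖G z‖ₑ ≤ 0 := ge_of_tendsto hlim (Eventually.of_forall h1)
    exact enorm_eq_zero.1 (le_antisymm h2 bot_le)
  have hL0 : ν1 = 0 := by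
    refine eq_zero_of_Lap (fun t => ?_)
    have h1 := hG0 (t * Complex.I)
    rw [hG] at h1
    simp only at h1
    exact (mul_eq_zero.1 h1).resolve_left (Complex.exp_ne_zero _)
  have h5 : ν1.variation univ = 0 := by rw [hL0, VectorMeasure.variation_zero]; rfl
  rwa [hv1, Measure.restrict_apply_univ] at h5

end Pool.Agent.Work.N81f94f
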