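import Pool.Agent.Work.MP_81f94f_an.CM

set_option autoImplicit false

namespace Pool.Agent.Work.N81f94f

open MeasureTheory Set Filter
open scoped ENNReal Topology

variable {X : Type*} [MeasurableSpace X]

/-- the complex integral against a complex measure -/
noncomputable def cint (ν : ComplexMeasure X) (φ : X → ℂ) : ℂ :=
  VectorMeasure.integral ν φ (ContinuousLinearMap.mul ℝ ℂ)

theorem variation_rep {μ : Measure X} {h : X → ℂ} (hh : Integrable h μ) :
    (μ.withDensityᵥ h).variation = μ.withDensity (fun x ↦ ‖h x‖ₑ) :=
  Measure.variation_withDensityᵥ hh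

/-- integrability against the variation of a measure with density -/
theorem integrable_mul_of_variation {μ : Measure X} {h : X → ℂ} (hh : Integrable h μ)
    {φ : X → ℂ} (hφ : Integrable φ (μ.withDensityᵥ h).variation) :
    Integrable (fun x => φ x * h x) μ := by
  rw [variation_rep hh] at hφ
  obtain ⟨h', hm, hae⟩ := hh.aestronglyMeasurable
  have h1 : μ.withDensity (fun x ↦ ‖h x‖ₑ) = μ.withDensity (fun x ↦ (‖h' x‖₊ : ℝ≥0∞)) := by
    refine withDensity_congr_ae ?_
    filter_upwards [hae] with x hx
    rw [hx]; rfl
  rw [h1] at hφ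
  have h2 := (integrable_withDensity_iff_integrable_smul (μ := μ) (f := fun x => ‖h' x‖₊)
    (hm.measurable.nnnorm) (g := φ)).1 hφ
  -- `φ * h` has the same norm
  have h3 : AEStronglyMeasurable (fun x => φ x * h' x) μ := by
    have h5 : (fun x => φ x * h' x) =
        fun x => ((‖h' x‖₊ : NNReal) • φ x) * (h' x * ((‖h' x‖⁻¹ : ℝ) : ℂ)) := by
      funext x
      by_cases hx : h' x = 0
      · simp [hx]
      · have hn : (‖h' x‖ : ℝ) ≠ 0 := norm_ne_zero_iff.2 hx
        have hn' : ((‖h' x‖ : ℝ) : ℂ) ≠ 0 := by exact_mod_cast hn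
        rw [NNReal.smul_def, coe_nnnorm, Complex.real_smul, Complex.ofReal_inv]
        field_simp
    rw [h5]
    refine AEStronglyMeasurable.mul h2.aestronglyMeasurable ?_
    exact (hm.measurable.mul
      (Complex.measurable_ofReal.comp (hm.measurable.norm.inv))).aestronglyMeasurable
  have h6 : Integrable (fun x => φ x * h' x) μ := by
    refine h2.mono h3 ?_
    filter_upwards with x
    have h7 : ‖(‖h' x‖₊ • φ x : ℂ)‖ = ‖h' x‖ * ‖φ x‖ := by
      rw [NNReal.smul_def, norm_smul, coe_nnnorm, norm_norm]
    exact (le_of_eq (by rw [norm_mul, h7, mul_comm]))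
  refine h6.congr ?_
  filter_upwards [hae] with x hx
  rw [hx]

theorem norm_integral_mul_le {μ : Measure X} {h : X → ℂ} (hh : Integrable h μ)
    {φ : X → ℂ} (hφ : Integrable φ (μ.withDensityᵥ h).variation) :
    ‖∫ x, φ x * h x ∂μ‖ ≤ ∫ x, ‖φ x‖ ∂(μ.withDensityᵥ h).variation := by
  refine (norm_integral_le_integral_norm _).trans ?_
  have h1 := integrable_mul_of_variation hh hφ
  rw [integral_eq_lintegral_of_nonneg_ae (Eventually.of_forall (fun x => norm_nonneg _))
    h1.norm.aestronglyMeasurable,
    integral_eq_lintegral_of_nonneg_ae (Eventually.of_forall (fun x => norm_nonneg _))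
    hφ.norm.aestronglyMeasurable]
  refine ENNReal.toReal_mono ?_ ?_
  · have := hφ.norm.lintegral_lt_top
    exact this.ne
  · rw [variation_rep hh]
    rw [lintegral_withDensity_eq_lintegral_mul₀' hh.aestronglyMeasurable.enorm]
    · refine lintegral_mono (fun x => ?_)
      rw [Pi.mul_apply, norm_mul, ENNReal.ofReal_mul (norm_nonneg _), ofReal_norm, ofReal_norm,
        mul_comm]
    · have := hφ.norm.aestronglyMeasurable.aemeasurable.ennreal_ofReal
      rwa [variation_rep hh] at this

/-- the integral against a measure given by a density -/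
theorem cint_withDensity {μ : Measure X} {h : X → ℂ} (hh : Integrable h μ)
    {φ : X → ℂ} (hφ : Integrable φ (μ.withDensityᵥ h).variation) :
    cint (μ.withDensityᵥ h) φ = ∫ x, φ x * h x ∂μ := by
  refine Integrable.induction (P := fun φ => cint (μ.withDensityᵥ h) φ = ∫ x, φ x * h x ∂μ)
    ?_ ?_ ?_ ?_ hφ
  · intro c s hs hfin
    unfold cint
    rw [VectorMeasure.integral_indicator_const _ hs]
    rw [withDensityᵥ_apply hh hs]
    have h1 : (fun x => s.indicator (fun _ => c) x * h x) = s.indicator (fun x => c * h x) := by
      funext x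
      by_cases hx : x ∈ s
      · simp [hx]
      · simp [hx]
    rw [h1, integral_indicator hs, integral_const_mul]
    rfl
  · intro f g _ hf hg h1 h2
    unfold cint at h1 h2 ⊢
    rw [VectorMeasure.integral_add hf hg, h1, h2, ← integral_add]
    · refine integral_congr_ae (Eventually.of_forall (fun x => ?_))
      simp [add_mul]
    · exact integrable_mul_of_variation hh hf
    · exact integrable_mul_of_variation hh hg
  · have hc1 : Continuous fun f : X →₁[(μ.withDensityᵥ h).variation] ℂ =>
        cint (μ.withDensityᵥ h) f := VectorMeasure.continuous_integral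
    have hc2 : Continuous fun f : X →₁[(μ.withDensityᵥ h).variation] ℂ =>
        ∫ x, f x * h x ∂μ := by
      refine (LipschitzWith.of_dist_le_mul (K := 1) (fun f g => ?_)).continuous
      rw [dist_eq_norm, dist_eq_norm, NNReal.coe_one, one_mul]
      have h3 : ∫ x, f x * h x ∂μ - ∫ x, g x * h x ∂μ = ∫ x, (f x - g x) * h x ∂μ := by
        rw [← integral_sub]
        · refine integral_congr_ae (Eventually.of_forall (fun x => ?_))
          simp [sub_mul]
        · exact integrable_mul_of_variation hh (L1.integrable_coeFn f)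
        · exact integrable_mul_of_variation hh (L1.integrable_coeFn g)
      rw [h3]
      refine (norm_integral_mul_le hh
        ((L1.integrable_coeFn f).sub (L1.integrable_coeFn g))).trans ?_
      rw [L1.norm_eq_integral_norm]
      refine le_of_eq (integral_congr_ae ?_)
      filter_upwards [Lp.coeFn_sub f g] with x hx
      rw [hx, Pi.sub_apply]
    exact isClosed_eq hc1 hc2
  · intro f g hfg hf h1
    have h2 : cint (μ.withDensityᵥ h) g = cint (μ.withDensityᵥ h) f :=
      (VectorMeasure.integral_congr_ae hfg).symm
    rw [h2, h1]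
    refine integral_congr_ae ?_
    rw [variation_rep hh] at hfg
    have h3 := (ae_withDensity_iff' hh.aestronglyMeasurable.enorm).1 hfg
    filter_upwards [h3] with x hx
    by_cases h0 : h x = 0
    · simp [h0]
    · rw [hx (by simpa using h0)]

end Pool.Agent.Work.N81f94f
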