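import Pool.Agent.Work.MP_81f94f_an.Crit

set_option autoImplicit false

namespace Pool.Agent.Work.N81f94f

open MeasureTheory Set Filter
open scoped ENNReal Topology

/-- convolution on the whole line -/
noncomputable def hconv (F G : ℝ → ℂ) (t : ℝ) : ℂ := ∫ s, G s * F (t - s)

theorem hconv_integrable₂ {F G : ℝ → ℂ} (hF : Integrable F) (hG : Integrable G) :
    Integrable (fun p : ℝ × ℝ => G p.2 * F (p.1 - p.2)) (volume.prod volume) :=
  hG.convolution_integrand (ContinuousLinearMap.mul ℝ ℂ) hF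

theorem hconv_integrable {F G : ℝ → ℂ} (hF : Integrable F) (hG : Integrable G) :
    Integrable (hconv F G) :=
  (hconv_integrable₂ hF hG).integral_prod_left

theorem cconv_wd {F G : ℝ → ℂ} (hF : Integrable F) (hG : Integrable G) :
    cconv (volume.withDensityᵥ F) (volume.withDensityᵥ G) = volume.withDensityᵥ (hconv F G) := by
  have hadd : Measurable (fun p : ℝ × ℝ => p.1 + p.2) := by fun_prop
  ext E hE : 1
  unfold cconv
  rw [VectorMeasure.map_apply _ hadd hE, prod_rep hF hG]
  set A := (fun p : ℝ × ℝ => p.1 + p.2) ⁻¹' E with hA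
  have hAm : MeasurableSet A := hadd hE
  rw [withDensityᵥ_apply (hF.mul_prod hG) hAm, withDensityᵥ_apply (hconv_integrable hF hG) hE,
    ← integral_indicator hAm, ← integral_indicator hE,
    integral_prod_symm _ ((hF.mul_prod hG).indicator hAm)]
  have h1 : ∀ y : ℝ, ∫ x, A.indicator (fun p : ℝ × ℝ => F p.1 * G p.2) (x, y) =
      ∫ t, E.indicator (fun t => G y * F (t - y)) t := by
    intro y
    rw [← integral_sub_right_eq_self (fun x => A.indicator (fun p : ℝ × ℝ => F p.1 * G p.2) (x, y)) y]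
    refine integral_congr_ae (Eventually.of_forall (fun t => ?_))
    simp only
    by_cases ht : t ∈ E
    · rw [indicator_of_mem (show (t - y, y) ∈ A by simpa [hA] using ht), indicator_of_mem ht,
        mul_comm]
    · rw [indicator_of_notMem (show (t - y, y) ∉ A by simpa [hA] using ht), indicator_of_notMem ht]
  rw [integral_congr_ae (Eventually.of_forall h1)]
  have h2 : ∀ t : ℝ, E.indicator (hconv F G) t = ∫ s, E.indicator (fun t => G s * F (t - s)) t := by
    intro t
    by_cases ht : t ∈ E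
    · simp only [indicator_of_mem ht]; rfl
    · simp only [indicator_of_notMem ht, integral_zero]
  rw [integral_congr_ae (Eventually.of_forall h2)]
  refine (integral_integral_swap ?_).symm
  have h3 := (hconv_integrable₂ hF hG).indicator (hE.prod (MeasurableSet.univ (α := ℝ)))
  refine h3.congr (Eventually.of_forall (fun p => ?_))
  obtain ⟨t, s⟩ := p
  simp only [Function.uncurry]
  by_cases ht : t ∈ E
  · rw [indicator_of_mem (show (t, s) ∈ E ×ˢ univ from ⟨ht, mem_univ _⟩), indicator_of_mem ht]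
  · rw [indicator_of_notMem (show (t, s) ∉ E ×ˢ univ from fun h => ht h.1), indicator_of_notMem ht]

theorem restrict_wd {F : ℝ → ℂ} (hF : Integrable F) {s : Set ℝ} (hs : MeasurableSet s) :
    (volume.withDensityᵥ F).restrict s = volume.withDensityᵥ (s.indicator F) := by
  ext E hE : 1
  rw [VectorMeasure.restrict_apply _ hs hE, withDensityᵥ_apply hF (hE.inter hs),
    withDensityᵥ_apply (hF.indicator hs) hE, setIntegral_indicator hs]

/-- cut off to the open unit interval -/
noncomputable def cut (f : ℝ → ℂ) : ℝ → ℂ := (Ioo (0:ℝ) 1).indicator f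

theorem hconv_cut (f g : ℝ → ℂ) {t : ℝ} (ht : t ∈ Ioo (0:ℝ) 1) :
    hconv (cut f) (cut g) t = fconv f g t := by
  unfold hconv fconv
  rw [intervalIntegral.integral_of_le ht.1.le, ← integral_indicator measurableSet_Ioc]
  refine integral_congr_ae ?_
  have h1 : ∀ᵐ s : ℝ, s ≠ t := by
    rw [ae_iff]
    simp
  filter_upwards [h1] with s hs
  unfold cut
  by_cases h2 : s ∈ Ioc 0 t
  · rw [indicator_of_mem h2]
    have h3 : s < t := lt_of_le_of_ne h2.2 hs
    rw [indicator_of_mem (show s ∈ Ioo (0:ℝ) 1 from ⟨h2.1, h3.trans ht.2⟩),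
      indicator_of_mem (show t - s ∈ Ioo (0:ℝ) 1 from ⟨by linarith, by linarith [h2.1, ht.2]⟩),
      mul_comm]
  · rw [indicator_of_notMem h2]
    by_cases h4 : 0 < s
    · have h5 : t < s := by
        by_contra h6
        exact h2 ⟨h4, not_lt.1 h6⟩
      rw [indicator_of_notMem (show t - s ∉ Ioo (0:ℝ) 1 from fun h => by linarith [h.1]), mul_zero]
    · rw [indicator_of_notMem (show s ∉ Ioo (0:ℝ) 1 from fun h => h4 h.1), zero_mul]

theorem tpow_wd {f : ℝ → ℂ} (hf : Integrable (cut f)) (n : ℕ) :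
    Integrable (cut (fpow f (n+1))) ∧
      tpow (volume.withDensityᵥ (cut f)) (n+1) = volume.withDensityᵥ (cut (fpow f (n+1))) := by
  induction' n with n ih
  · exact ⟨hf, rfl⟩
  · obtain ⟨h1, h2⟩ := ih
    have h3 : cut (fpow f (n+2)) = (Ioo (0:ℝ) 1).indicator (hconv (cut (fpow f (n+1))) (cut f)) := by
      funext t
      by_cases ht : t ∈ Ioo (0:ℝ) 1
      · rw [indicator_of_mem ht, hconv_cut _ _ ht]
        unfold cut
        rw [indicator_of_mem ht]
        rfl
      · unfold cut
        rw [indicator_of_notMem ht, indicator_of_notMem ht]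
    have h4 := hconv_integrable h1 hf
    refine ⟨?_, ?_⟩
    · rw [h3]
      exact h4.indicator measurableSet_Ioo
    · change tconv (tpow (volume.withDensityᵥ (cut f)) (n+1)) (volume.withDensityᵥ (cut f)) = _
      rw [h2, h3]
      unfold tconv
      rw [cconv_wd h1 hf, restrict_wd h4 measurableSet_Ioo]

theorem criterion_L1 {ω : ℕ → ℝ} (hpos : ∀ n, 1 ≤ n → 0 < ω n) (h2 : ω 2 = ω 1 ^ 2)
    (hb : ∀ N : ℕ, ∃ n, N ≤ n ∧ ∀ i, n ≤ i → i ≤ 2 * n → ω (2 * i) = ω i ^ 2) :
    ¬ ∃ f : ℝ → ℂ, IntegrableOn f (Icc 0 1) ∧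
      ∀ n, 1 ≤ n → ∫ t in (0:ℝ)..1, ‖fpow f n t‖ = ω n := by
  rintro ⟨f, hf, hn⟩
  refine criterion hpos h2 hb ⟨volume.withDensityᵥ (cut f), ?_, ?_⟩
  · have hc : Integrable (cut f) :=
      (integrable_indicator_iff measurableSet_Ioo).2 (hf.mono_set Ioo_subset_Icc_self)
    change VectorMeasure.restrict _ _ = _
    rw [restrict_wd hc measurableSet_Ioo]
    congr 1
    unfold cut
    rw [indicator_indicator, inter_self]
  · intro n h1
    obtain ⟨k, rfl⟩ : ∃ k, n = k + 1 := ⟨n - 1, by omega⟩
    have hc : Integrable (cut f) :=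
      (integrable_indicator_iff measurableSet_Ioo).2 (hf.mono_set Ioo_subset_Icc_self)
    obtain ⟨h3, h4⟩ := tpow_wd hc k
    rw [h4, variation_rep h3, withDensity_apply _ MeasurableSet.univ, Measure.restrict_univ,
      ← hn (k+1) h1, intervalIntegral.integral_of_le zero_le_one, integral_Ioc_eq_integral_Ioo,
      ← integral_indicator measurableSet_Ioo]
    have h5 : (Ioo (0:ℝ) 1).indicator (fun t => ‖fpow f (k+1) t‖) = fun t => ‖cut (fpow f (k+1)) t‖ := by
      funext t
      unfold cut
      by_cases ht : t ∈ Ioo (0:ℝ) 1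
      · rw [indicator_of_mem ht, indicator_of_mem ht]
      · rw [indicator_of_notMem ht, indicator_of_notMem ht, norm_zero]
    rw [h5, ofReal_integral_norm_eq_lintegral_enorm h3]

end Pool.Agent.Work.N81f94f
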