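import Pool.Agent.Work.MP_81f94f_an.Int

set_option autoImplicit false

namespace Pool.Agent.Work.N81f94f

open MeasureTheory Set Filter
open scoped ENNReal Topology

/-- Laplace transform -/
noncomputable def Lap (ν : ComplexMeasure ℝ) (z : ℂ) : ℂ := cint ν (fun x : ℝ => Complex.exp (-(z * x)))

/-- the measure lives on `[0,L]` -/
def CS (ν : ComplexMeasure ℝ) (L : ℝ) : Prop := ν.variation (Icc 0 L)ᶜ = 0

theorem norm_exp_eq (z : ℂ) (x : ℝ) : ‖Complex.exp (-(z * x))‖ = Real.exp (-(z.re * x)) := by
  rw [Complex.norm_exp]; simp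

theorem meas_exp (z : ℂ) : Measurable (fun x : ℝ => Complex.exp (-(z * x))) := by
  fun_prop

theorem CS.ae {ν : ComplexMeasure ℝ} {L : ℝ} (h : CS ν L) :
    ∀ᵐ x ∂ν.variation, x ∈ Icc (0:ℝ) L := by
  rw [ae_iff]; exact h

theorem exp_bound (z : ℂ) {x L : ℝ} (hx : x ∈ Icc (0:ℝ) L) :
    ‖Complex.exp (-(z * x))‖ ≤ Real.exp (|z.re| * L) := by
  rw [norm_exp_eq]
  refine Real.exp_le_exp.2 ?_
  have h1 : -(z.re * x) ≤ |z.re| * x := by
    have := neg_abs_le z.re
    nlinarith [hx.1]
  exact h1.trans (mul_le_mul_of_nonneg_left hx.2 (abs_nonneg _))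

theorem integrable_exp {ν : ComplexMeasure ℝ} {L : ℝ} (h : CS ν L) (z : ℂ) :
    Integrable (fun x : ℝ => Complex.exp (-(z * x))) ν.variation := by
  refine Integrable.of_bound (meas_exp z).aestronglyMeasurable (Real.exp (|z.re| * L)) ?_
  filter_upwards [h.ae] with x hx
  exact exp_bound z hx

theorem integrable_exp_I (ν : ComplexMeasure ℝ) (t : ℝ) :
    Integrable (fun x : ℝ => Complex.exp (-((t * Complex.I) * x))) ν.variation := by
  refine Integrable.of_bound (meas_exp _).aestronglyMeasurable 1 ?_
  filter_upwards with x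
  rw [norm_exp_eq]
  simp

theorem prod_rep {X Y : Type*} [MeasurableSpace X] [MeasurableSpace Y]
    {m1 : Measure X} {m2 : Measure Y} [SFinite m1] [SFinite m2] {h1 : X → ℂ} {h2 : Y → ℂ}
    (i1 : Integrable h1 m1) (i2 : Integrable h2 m2) :
    (m1.withDensityᵥ h1).prod (m2.withDensityᵥ h2) (ContinuousLinearMap.mul ℝ ℂ) =
      (m1.prod m2).withDensityᵥ (fun p => h1 p.1 * h2 p.2) := by
  refine VectorMeasure.prod_eq_of_forall_apply_prod (fun s t hs ht => ?_)
  rw [withDensityᵥ_apply (i1.mul_prod i2) (hs.prod ht), withDensityᵥ_apply i1 hs,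
    withDensityᵥ_apply i2 ht, ← Measure.prod_restrict, integral_prod_mul]
  rfl

theorem cint_map {X Y : Type*} [MeasurableSpace X] [MeasurableSpace Y] {ρ : ComplexMeasure X}
    {f : X → Y} (hf : Measurable f) {φ : Y → ℂ} (hφ : Measurable φ)
    (hi : Integrable (fun x => φ (f x)) ρ.variation) :
    cint (ρ.map f) φ = cint ρ (fun x => φ (f x)) :=
  VectorMeasure.integral_map hf hφ.aestronglyMeasurable hi

/-- multiplicativity of the integral of a multiplicative function -/
theorem cint_cconv {μ ν : ComplexMeasure ℝ} {φ : ℝ → ℂ} (hφ : Measurable φ)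
    (hmul : ∀ x y, φ (x + y) = φ x * φ y)
    (h1 : Integrable φ μ.variation) (h2 : Integrable φ ν.variation)
    (h3 : Integrable (fun p : ℝ × ℝ => φ (p.1 + p.2))
      (μ.prod ν (ContinuousLinearMap.mul ℝ ℂ)).variation) :
    cint (cconv μ ν) φ = cint μ φ * cint ν φ := by
  unfold cconv
  rw [cint_map (by fun_prop) hφ h3]
  obtain ⟨m1, g1, _, i1, rfl⟩ := exists_rep μ
  obtain ⟨m2, g2, _, i2, rfl⟩ := exists_rep ν
  rw [prod_rep i1 i2] at h3 ⊢
  rw [cint_withDensity (i1.mul_prod i2) h3, cint_withDensity i1 h1, cint_withDensity i2 h2,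
    ← integral_prod_mul]
  refine integral_congr_ae (Eventually.of_forall (fun p => ?_))
  simp only [hmul]
  ring

theorem cconv_variation_le (μ ν : ComplexMeasure ℝ) :
    (cconv μ ν).variation ≤ (μ.variation.prod ν.variation).map (fun p : ℝ × ℝ => p.1 + p.2) := by
  unfold cconv
  refine VectorMeasure.variation_map_le.trans ?_
  refine Measure.map_mono ?_ (by fun_prop)
  refine VectorMeasure.variation_prod_le.trans ?_
  intro s
  rw [Measure.smul_apply, smul_eq_mul]
  have h1 : ‖ContinuousLinearMap.mul ℝ ℂ‖ₑ ≤ 1 := by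
    rw [← ofReal_norm, ← ENNReal.ofReal_one]
    exact ENNReal.ofReal_le_ofReal (ContinuousLinearMap.opNorm_mul_le ℝ ℂ)
  calc _ ≤ 1 * (μ.variation.prod ν.variation) s := by gcongr
    _ = _ := one_mul _

theorem prod_var_le {X Y : Type*} [MeasurableSpace X] [MeasurableSpace Y]
    (μ : ComplexMeasure X) (ν : ComplexMeasure Y) :
    (μ.prod ν (ContinuousLinearMap.mul ℝ ℂ)).variation ≤ μ.variation.prod ν.variation := by
  refine VectorMeasure.variation_prod_le.trans ?_
  intro s
  rw [Measure.smul_apply, smul_eq_mul]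
  have h1 : ‖ContinuousLinearMap.mul ℝ ℂ‖ₑ ≤ 1 := by
    rw [← ofReal_norm, ← ENNReal.ofReal_one]
    exact ENNReal.ofReal_le_ofReal (ContinuousLinearMap.opNorm_mul_le ℝ ℂ)
  calc _ ≤ 1 * (μ.variation.prod ν.variation) s := by gcongr
    _ = _ := one_mul _

theorem CS.mono {ν : ComplexMeasure ℝ} {L L' : ℝ} (h : CS ν L) (hL : L ≤ L') : CS ν L' := by
  unfold CS at h ⊢
  exact measure_mono_null (compl_subset_compl.2 (Icc_subset_Icc_right hL)) h

theorem CS.prod_ae {μ ν : ComplexMeasure ℝ} {L L' : ℝ} (h : CS μ L) (h' : CS ν L') :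
    ∀ᵐ p ∂(μ.variation.prod ν.variation), p.1 ∈ Icc (0:ℝ) L ∧ p.2 ∈ Icc (0:ℝ) L' := by
  have h1 : ∀ᵐ p ∂(μ.variation.prod ν.variation), p.1 ∈ Icc (0:ℝ) L :=
    (Measure.quasiMeasurePreserving_fst (μ := μ.variation) (ν := ν.variation)).ae h.ae
  have h2 : ∀ᵐ p ∂(μ.variation.prod ν.variation), p.2 ∈ Icc (0:ℝ) L' :=
    (Measure.quasiMeasurePreserving_snd (μ := μ.variation) (ν := ν.variation)).ae h'.ae
  exact h1.and h2

theorem CS.cconv {μ ν : ComplexMeasure ℝ} {L L' : ℝ} (h : CS μ L) (h' : CS ν L') :
    CS (cconv μ ν) (L + L') := by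
  unfold CS
  refine le_antisymm ?_ bot_le
  refine ((cconv_variation_le μ ν) _).trans ?_
  rw [Measure.map_apply (by fun_prop) measurableSet_Icc.compl]
  have := h.prod_ae h'
  rw [ae_iff] at this
  refine (measure_mono_null (fun p hp hc => ?_) this).le
  apply hp
  constructor
  · have := hc.1.1
    have := hc.2.1
    linarith
  · have := hc.1.2
    have := hc.2.2
    linarith

theorem Lap_cconv {μ ν : ComplexMeasure ℝ} {L L' : ℝ} (h : CS μ L) (h' : CS ν L') (z : ℂ) :
    Lap (cconv μ ν) z = Lap μ z * Lap ν z := by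
  unfold Lap
  refine cint_cconv (meas_exp z) ?_ (integrable_exp h z) (integrable_exp h' z) ?_
  · intro x y
    rw [← Complex.exp_add]
    congr 1
    push_cast
    ring
  · refine Integrable.mono_measure ?_ (prod_var_le μ ν)
    refine Integrable.of_bound ((meas_exp z).comp (by fun_prop)).aestronglyMeasurable
      (Real.exp (|z.re| * (L + L'))) ?_
    filter_upwards [h.prod_ae h'] with p hp
    refine exp_bound z ⟨?_, ?_⟩
    · have := hp.1.1
      have := hp.2.1
      linarith
    · have := hp.1.2
      have := hp.2.2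
      linarith

/-- A real integrable function with vanishing Fourier transform is null. -/
theorem real_null {m : Measure ℝ} {g : ℝ → ℝ} (hg : Integrable g m)
    (h : ∀ t : ℝ, ∫ x, Complex.exp (t * x * Complex.I) * (g x : ℂ) ∂m = 0) : g =ᵐ[m] 0 := by
  have hm := hg.aestronglyMeasurable.aemeasurable
  have fin1 : IsFiniteMeasure (m.withDensity (fun x => ENNReal.ofReal (g x))) :=
    isFiniteMeasure_withDensity_ofReal hg.2
  have fin2 : IsFiniteMeasure (m.withDensity (fun x => ENNReal.ofReal (-g x))) :=
    isFiniteMeasure_withDensity_ofReal hg.neg.2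
  have hm2 : AEMeasurable (fun x => -g x) m := hm.neg
  have hexp : ∀ t : ℝ, Measurable (fun x : ℝ => Complex.exp (t * x * Complex.I)) := by
    intro t; fun_prop
  have hn : ∀ t x : ℝ, ‖Complex.exp (t * x * Complex.I)‖ = 1 := by
    intro t x
    rw [← Complex.ofReal_mul, Complex.norm_exp_ofReal_mul_I]
  have key : m.withDensity (fun x => ENNReal.ofReal (g x)) =
      m.withDensity (fun x => ENNReal.ofReal (-g x)) := by
    refine Measure.ext_of_charFun (funext (fun t => ?_))
    rw [charFun_apply_real, charFun_apply_real]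
    rw [integral_withDensity_eq_integral_toReal_smul₀ hm.ennreal_ofReal
      (Eventually.of_forall (fun _ => ENNReal.ofReal_lt_top)),
      integral_withDensity_eq_integral_toReal_smul₀ hm2.ennreal_ofReal
      (Eventually.of_forall (fun _ => ENNReal.ofReal_lt_top)), ← sub_eq_zero, ← integral_sub]
    · rw [← h t]
      refine integral_congr_ae (Eventually.of_forall (fun x => ?_))
      simp only [ENNReal.toReal_ofReal', Complex.real_smul]
      have : max (g x) 0 - max (-g x) 0 = g x := by
        rcases le_total 0 (g x) with h0 | h0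
        · rw [max_eq_left h0, max_eq_right (by linarith)]; ring
        · rw [max_eq_right h0, max_eq_left (by linarith)]; ring
      rw [← sub_mul, ← Complex.ofReal_sub, this, mul_comm]
    · refine (hg.norm).mono ?_ ?_
      · exact (AEMeasurable.smul (hm.ennreal_ofReal.ennreal_toReal)
          (hexp t).aemeasurable).aestronglyMeasurable
      · filter_upwards with x
        rw [norm_smul, hn, mul_one, ENNReal.toReal_ofReal', norm_norm]
        simp only [Real.norm_eq_abs]
        rw [abs_of_nonneg (le_max_right _ _)]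
        exact max_le (le_abs_self _) (abs_nonneg _)
    · refine (hg.norm).mono ?_ ?_
      · exact (AEMeasurable.smul (hm2.ennreal_ofReal.ennreal_toReal)
          (hexp t).aemeasurable).aestronglyMeasurable
      · filter_upwards with x
        rw [norm_smul, hn, mul_one, ENNReal.toReal_ofReal', norm_norm]
        simp only [Real.norm_eq_abs]
        rw [abs_of_nonneg (le_max_right _ _)]
        exact max_le (neg_le_abs _) (abs_nonneg _)
  rw [withDensity_eq_iff hm.ennreal_ofReal hm2.ennreal_ofReal] at key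
  · filter_upwards [key] with x hx
    rcases lt_trichotomy (g x) 0 with h0 | h0 | h0
    · rw [ENNReal.ofReal_of_nonpos h0.le] at hx
      have : 0 < ENNReal.ofReal (-g x) := ENNReal.ofReal_pos.2 (by linarith)
      rw [← hx] at this
      exact absurd this (lt_irrefl _)
    · exact h0
    · rw [ENNReal.ofReal_of_nonpos (show -g x ≤ 0 by linarith)] at hx
      have : 0 < ENNReal.ofReal (g x) := ENNReal.ofReal_pos.2 h0
      rw [hx] at this
      exact absurd this (lt_irrefl _)
  · have := fin1.measure_univ_lt_top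
    rw [withDensity_apply _ MeasurableSet.univ, Measure.restrict_univ] at this
    exact this.ne

theorem eq_zero_of_Lap {ν : ComplexMeasure ℝ} (h : ∀ t : ℝ, Lap ν (t * Complex.I) = 0) : ν = 0 := by
  obtain ⟨m, g, _, hg, rfl⟩ := exists_rep ν
  have h1 : ∀ t : ℝ, ∫ x, Complex.exp (t * x * Complex.I) * g x ∂m = 0 := by
    intro t
    have h2 := h (-t)
    unfold Lap at h2
    rw [cint_withDensity hg (integrable_exp_I _ _)] at h2
    rw [← h2]
    refine integral_congr_ae (Eventually.of_forall (fun x => ?_))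
    simp only
    congr 2
    push_cast
    ring
  have h2 : ∀ t : ℝ, ∫ x, Complex.exp (t * x * Complex.I) * (starRingEnd ℂ) (g x) ∂m = 0 := by
    intro t
    have h3 := congrArg (starRingEnd ℂ) (h1 (-t))
    rw [← integral_conj, map_zero] at h3
    rw [← h3]
    refine integral_congr_ae (Eventually.of_forall (fun x => ?_))
    simp only [map_mul, ← Complex.exp_conj, Complex.conj_ofReal, Complex.conj_I]
    congr 2
    push_cast
    ring
  have hint : ∀ t : ℝ, Integrable (fun x : ℝ => Complex.exp (t * x * Complex.I) * g x) m := by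
    intro t
    refine hg.bdd_mul (c := 1) (by fun_prop) ?_
    filter_upwards with x
    rw [← Complex.ofReal_mul, Complex.norm_exp_ofReal_mul_I]
  have hgc : Integrable (fun x => (starRingEnd ℂ) (g x)) m := by
    refine hg.mono (Complex.continuous_conj.comp_aestronglyMeasurable hg.aestronglyMeasurable) ?_
    filter_upwards with x
    simp
  have hint' : ∀ t : ℝ, Integrable
      (fun x : ℝ => Complex.exp (t * x * Complex.I) * (starRingEnd ℂ) (g x)) m := by
    intro t
    refine hgc.bdd_mul (c := 1) (by fun_prop) ?_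
    filter_upwards with x
    rw [← Complex.ofReal_mul, Complex.norm_exp_ofReal_mul_I]
  have hre : (fun x => (g x).re) =ᵐ[m] 0 := by
    refine real_null hg.re (fun t => ?_)
    have h3 : ∫ x : ℝ, Complex.exp (t * x * Complex.I) * ((g x).re : ℂ) ∂m =
        (1/2) * (∫ x : ℝ, Complex.exp (t * x * Complex.I) * g x ∂m +
          ∫ x : ℝ, Complex.exp (t * x * Complex.I) * (starRingEnd ℂ) (g x) ∂m) := by
      rw [← integral_add (hint t) (hint' t), ← integral_const_mul]
      refine integral_congr_ae (Eventually.of_forall (fun x => ?_))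
      simp only
      rw [← mul_add, Complex.add_conj]
      push_cast
      ring
    rw [h3, h1, h2]; ring
  have him : (fun x => (g x).im) =ᵐ[m] 0 := by
    refine real_null hg.im (fun t => ?_)
    have h3 : ∫ x : ℝ, Complex.exp (t * x * Complex.I) * ((g x).im : ℂ) ∂m =
        (1/(2*Complex.I)) * (∫ x : ℝ, Complex.exp (t * x * Complex.I) * g x ∂m -
          ∫ x : ℝ, Complex.exp (t * x * Complex.I) * (starRingEnd ℂ) (g x) ∂m) := by
      rw [← integral_sub (hint t) (hint' t), ← integral_const_mul]
      refine integral_congr_ae (Eventually.of_forall (fun x => ?_))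
      simp only
      rw [← mul_sub, Complex.sub_conj]
      have : Complex.I ≠ 0 := Complex.I_ne_zero
      field_simp
      push_cast
      ring
    rw [h3, h1, h2]; ring
  have h0 : g =ᵐ[m] 0 := by
    filter_upwards [hre, him] with x hx hy
    exact Complex.ext hx hy
  rw [WithDensityᵥEq.congr_ae h0, withDensityᵥ_zero]

theorem ext_of_Lap {μ ν : ComplexMeasure ℝ} (h : ∀ z : ℂ, Lap μ z = Lap ν z) : μ = ν := by
  rw [← sub_eq_zero]
  refine eq_zero_of_Lap (fun t => ?_)
  unfold Lap cint
  rw [VectorMeasure.integral_sub_vectorMeasure (integrable_exp_I _ _) (integrable_exp_I _ _)]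
  have := h (t * Complex.I)
  unfold Lap cint at this
  rw [this, sub_self]

end Pool.Agent.Work.N81f94f
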