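import Pool.Agent.Work.MP_81f94f_an.Entire

set_option autoImplicit false

namespace Pool.Agent.Work.N81f94f

open MeasureTheory Set Filter
open scoped ENNReal Topology

theorem var_compl_of_restrict {X : Type*} [MeasurableSpace X] {ν : ComplexMeasure X} {s : Set X}
    (hs : MeasurableSet s) (h : ν.restrict s = ν) : ν.variation sᶜ = 0 := by
  rw [← h, VectorMeasure.variation_restrict hs, Measure.restrict_apply hs.compl, compl_inter_self,
    measure_empty]

theorem restrict_of_var_compl {X : Type*} [MeasurableSpace X] {ν : ComplexMeasure X} {s : Set X}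
    (hs : MeasurableSet s) (h : ν.variation sᶜ = 0) : ν.restrict s = ν := by
  have h1 : ν.restrict s + ν.restrict sᶜ = ν := VectorMeasure.restrict_add_restrict_compl hs
  have h2 : ν.restrict sᶜ = 0 := by
    rw [← VectorMeasure.variation_eq_zero, VectorMeasure.variation_restrict hs.compl]
    exact Measure.restrict_eq_zero.2 h
  rw [h2, add_zero] at h1
  exact h1

theorem cconv_support {μ ν : ComplexMeasure ℝ} {s t u : Set ℝ} (hu : MeasurableSet u)
    (h1 : μ.variation sᶜ = 0) (h2 : ν.variation tᶜ = 0)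
    (hst : ∀ x ∈ s, ∀ y ∈ t, x + y ∈ u) : (cconv μ ν).variation uᶜ = 0 := by
  refine le_antisymm ?_ bot_le
  refine ((cconv_variation_le μ ν) _).trans ?_
  rw [Measure.map_apply (by fun_prop) hu.compl]
  have h3 : ∀ᵐ p ∂(μ.variation.prod ν.variation), p.1 ∈ s :=
    (Measure.quasiMeasurePreserving_fst (μ := μ.variation) (ν := ν.variation)).ae
      (p := fun x => x ∈ s) (by rw [ae_iff]; exact h1)
  have h4 : ∀ᵐ p ∂(μ.variation.prod ν.variation), p.2 ∈ t :=
    (Measure.quasiMeasurePreserving_snd (μ := μ.variation) (ν := ν.variation)).ae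
      (p := fun x => x ∈ t) (by rw [ae_iff]; exact h2)
  have h5 := h3.and h4
  rw [ae_iff] at h5
  refine (measure_mono_null (fun p hp hc => ?_) h5).le
  exact hp (hst _ hc.1 _ hc.2)

/-- the untruncated powers -/
noncomputable def cpow (μ : ComplexMeasure ℝ) : ℕ → ComplexMeasure ℝ
  | 0 => 0
  | 1 => μ
  | (n+2) => cconv (cpow μ (n+1)) μ

theorem cpow_facts {μ : ComplexMeasure ℝ} (h : μ.variation (Ioo 0 1)ᶜ = 0) (n : ℕ) :
    (cpow μ (n+1)).variation (Ioo 0 ((n:ℝ)+1))ᶜ = 0 ∧ ∀ z, Lap (cpow μ (n+1)) z = Lap μ z ^ (n+1) := by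
  have hCS : CS μ 1 := measure_mono_null (compl_subset_compl.2 Ioo_subset_Icc_self) h
  induction' n with n ih
  · refine ⟨?_, ?_⟩
    · simpa [cpow] using h
    · intro z; simp [cpow]
  · refine ⟨?_, ?_⟩
    · change (cconv (cpow μ (n+1)) μ).variation _ = 0
      refine cconv_support measurableSet_Ioo ih.1 h ?_
      intro x hx y hy
      push_cast
      exact ⟨by linarith [hx.1, hy.1], by linarith [hx.2, hy.2]⟩
    · intro z
      change Lap (cconv (cpow μ (n+1)) μ) z = _
      have hCS' : CS (cpow μ (n+1)) ((n:ℝ)+1) :=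
        measure_mono_null (compl_subset_compl.2 Ioo_subset_Icc_self) ih.1
      rw [Lap_cconv hCS' hCS, ih.2 z]
      ring

theorem prod_restrict_eq (x y : ComplexMeasure ℝ) {s t : Set ℝ} (hs : MeasurableSet s)
    (ht : MeasurableSet t) :
    (VectorMeasure.restrict x s).prod (VectorMeasure.restrict y t) (ContinuousLinearMap.mul ℝ ℂ) =
      (x.prod y (ContinuousLinearMap.mul ℝ ℂ)).restrict (s ×ˢ t) := by
  refine VectorMeasure.prod_eq_of_forall_apply_prod (fun a b ha hb => ?_)
  rw [VectorMeasure.restrict_apply _ (hs.prod ht) (ha.prod hb), prod_inter_prod,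
    VectorMeasure.prod_apply, VectorMeasure.restrict_apply _ hs ha,
    VectorMeasure.restrict_apply _ ht hb]

theorem trunc_conv {x y : ComplexMeasure ℝ} (hx : x.variation (Ioi 0)ᶜ = 0)
    (hy : y.variation (Ioi 0)ᶜ = 0) :
    tconv (x.restrict (Ioo 0 1)) (y.restrict (Ioo 0 1)) = (cconv x y).restrict (Ioo 0 1) := by
  unfold tconv
  ext E hE : 1
  have hadd : Measurable (fun p : ℝ × ℝ => p.1 + p.2) := by fun_prop
  have hI : MeasurableSet (Ioo (0:ℝ) 1) := measurableSet_Ioo
  rw [VectorMeasure.restrict_apply _ hI hE, VectorMeasure.restrict_apply _ hI hE]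
  unfold cconv
  rw [VectorMeasure.map_apply _ hadd (hE.inter hI), VectorMeasure.map_apply _ hadd (hE.inter hI),
    prod_restrict_eq _ _ hI hI]
  set A := (fun p : ℝ × ℝ => p.1 + p.2) ⁻¹' (E ∩ Ioo 0 1) with hA
  have hAm : MeasurableSet A := hadd (hE.inter hI)
  rw [VectorMeasure.restrict_apply _ (hI.prod hI) hAm]
  have h1 := VectorMeasure.of_add_of_sdiff (v := x.prod y (ContinuousLinearMap.mul ℝ ℂ))
    (hAm.inter (hI.prod hI)) hAm inter_subset_left
  rw [← h1]
  have h2 : (x.prod y (ContinuousLinearMap.mul ℝ ℂ)) (A \ (A ∩ Ioo 0 1 ×ˢ Ioo 0 1)) = 0 := by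
    have h3 : (x.variation.prod y.variation) (A \ (A ∩ Ioo 0 1 ×ˢ Ioo 0 1)) = 0 := by
      have h4 : ∀ᵐ p ∂(x.variation.prod y.variation), p.1 ∈ Ioi (0:ℝ) :=
        (Measure.quasiMeasurePreserving_fst (μ := x.variation) (ν := y.variation)).ae
          (p := fun x => x ∈ Ioi (0:ℝ)) (by rw [ae_iff]; exact hx)
      have h5 : ∀ᵐ p ∂(x.variation.prod y.variation), p.2 ∈ Ioi (0:ℝ) :=
        (Measure.quasiMeasurePreserving_snd (μ := x.variation) (ν := y.variation)).ae
          (p := fun x => x ∈ Ioi (0:ℝ)) (by rw [ae_iff]; exact hy)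
      have h6 := h4.and h5
      rw [ae_iff] at h6
      refine measure_mono_null ?_ h6
      intro p hp hc
      apply hp.2
      refine ⟨hp.1, ?_, ?_⟩
      · have := hp.1.2.2
        have a1 : (0:ℝ) < p.1 := hc.1
        have a2 : (0:ℝ) < p.2 := hc.2
        simp only at this
        exact ⟨a1, by linarith⟩
      · have := hp.1.2.2
        have a1 : (0:ℝ) < p.1 := hc.1
        have a2 : (0:ℝ) < p.2 := hc.2
        simp only at this
        exact ⟨a2, by linarith⟩
    have h4 := (VectorMeasure.enorm_measure_le_variation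
      (x.prod y (ContinuousLinearMap.mul ℝ ℂ)) (A \ (A ∩ Ioo 0 1 ×ˢ Ioo 0 1))).trans
      ((prod_var_le x y) _)
    rw [h3] at h4
    exact enorm_eq_zero.1 (le_antisymm h4 bot_le)
  rw [h2, add_zero]

theorem tpow_eq {μ : ComplexMeasure ℝ} (h : μ ∈ M01) (n : ℕ) :
    tpow μ (n+1) = (cpow μ (n+1)).restrict (Ioo 0 1) := by
  have hI : MeasurableSet (Ioo (0:ℝ) 1) := measurableSet_Ioo
  have hv := var_compl_of_restrict hI h
  induction' n with n ih
  · change μ = μ.restrict _
    exact h.symm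
  · change tconv (tpow μ (n+1)) μ = (cconv (cpow μ (n+1)) μ).restrict (Ioo 0 1)
    rw [ih]
    have h' : VectorMeasure.restrict μ (Ioo 0 1) = μ := h
    have key : tconv (VectorMeasure.restrict (cpow μ (n+1)) (Ioo 0 1))
        (VectorMeasure.restrict μ (Ioo 0 1)) = (cconv (cpow μ (n+1)) μ).restrict (Ioo 0 1) := ?_
    · rw [h'] at key
      exact key
    refine trunc_conv ?_ ?_
    · exact measure_mono_null (compl_subset_compl.2 (fun x hx => hx.1)) (cpow_facts hv n).1
    · exact measure_mono_null (compl_subset_compl.2 (fun x hx => hx.1)) hv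

theorem tpow_double {μ : ComplexMeasure ℝ} (h : μ ∈ M01) {n : ℕ} (hn : 1 ≤ n) :
    tpow μ (2 * n) = tconv (tpow μ n) (tpow μ n) := by
  have hI : MeasurableSet (Ioo (0:ℝ) 1) := measurableSet_Ioo
  have hv := var_compl_of_restrict hI h
  obtain ⟨k, rfl⟩ : ∃ k, n = k + 1 := ⟨n - 1, by omega⟩
  have h2 : 2 * (k + 1) = (2 * k + 1) + 1 := by ring
  rw [h2, tpow_eq h, tpow_eq h]
  have h3 : cpow μ (2 * k + 1 + 1) = cconv (cpow μ (k+1)) (cpow μ (k+1)) := by
    refine ext_of_Lap (fun z => ?_)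
    have hCS' : CS (cpow μ (k+1)) ((k:ℝ)+1) :=
      measure_mono_null (compl_subset_compl.2 Ioo_subset_Icc_self) (cpow_facts hv k).1
    rw [(cpow_facts hv (2*k+1)).2, Lap_cconv hCS' hCS', (cpow_facts hv k).2]
    ring
  rw [h3]
  symm
  refine trunc_conv ?_ ?_
  · exact measure_mono_null (compl_subset_compl.2 (fun x hx => hx.1)) (cpow_facts hv k).1
  · exact measure_mono_null (compl_subset_compl.2 (fun x hx => hx.1)) (cpow_facts hv k).1

theorem tpow_mem {μ : ComplexMeasure ℝ} (h : μ ∈ M01) {n : ℕ} (hn : 1 ≤ n) : tpow μ n ∈ M01 := by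
  obtain ⟨k, rfl⟩ : ∃ k, n = k + 1 := ⟨n - 1, by omega⟩
  rw [tpow_eq h]
  change VectorMeasure.restrict (VectorMeasure.restrict _ _) _ = _
  rw [VectorMeasure.restrict_restrict _ measurableSet_Ioo measurableSet_Ioo, inter_self]

theorem half_support {c : ComplexMeasure ℝ} (hc : c ∈ M01)
    (h : c.variation univ * c.variation univ ≤ (tconv c c).variation univ) :
    c.variation (Ioo 0 (1/2))ᶜ = 0 := by
  have hI : MeasurableSet (Ioo (0:ℝ) 1) := measurableSet_Ioo
  have hv := var_compl_of_restrict hI hc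
  set V := c.variation with hV
  set m := (V.prod V).map (fun p : ℝ × ℝ => p.1 + p.2) with hm
  have hadd : Measurable (fun p : ℝ × ℝ => p.1 + p.2) := by fun_prop
  have hmu : m univ = V univ * V univ := by
    rw [hm, Measure.map_apply hadd MeasurableSet.univ, preimage_univ, ← univ_prod_univ,
      Measure.prod_prod]
  have hfin : IsFiniteMeasure m := ⟨by
    rw [hmu]; exact ENNReal.mul_lt_top (measure_lt_top _ _) (measure_lt_top _ _)⟩
  have h1 : (tconv c c).variation univ ≤ m (Iio 1) := by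
    unfold tconv
    rw [VectorMeasure.variation_restrict hI, Measure.restrict_apply_univ]
    exact ((cconv_variation_le c c) _).trans (measure_mono (fun x hx => hx.2))
  have h2 : m univ ≤ m (Iio 1) := by rw [hmu]; exact h.trans h1
  have h3 : m (Ici 1) = 0 := by
    have h4 := measure_compl (μ := m) (measurableSet_Iio (a := (1:ℝ))) (measure_ne_top _ _)
    rw [compl_Iio] at h4
    rw [h4]
    exact tsub_eq_zero_of_le h2
  have h5 : V (Ici (1/2)) * V (Ici (1/2)) = 0 := by
    rw [← Measure.prod_prod]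
    rw [hm, Measure.map_apply hadd measurableSet_Ici] at h3
    refine measure_mono_null (fun p hp => ?_) h3
    have a1 : (1/2:ℝ) ≤ p.1 := hp.1
    have a2 : (1/2:ℝ) ≤ p.2 := hp.2
    change (1:ℝ) ≤ p.1 + p.2
    linarith
  have h6 : V (Ici (1/2)) = 0 := by
    rcases mul_eq_zero.1 h5 with h | h <;> exact h
  refine measure_mono_null (t := (Ioo 0 1)ᶜ ∪ Ici (1/2)) ?_ (measure_union_null hv h6)
  intro x hx
  by_cases hx1 : x ∈ Ioo (0:ℝ) 1
  · right
    by_contra h7
    exact hx ⟨hx1.1, not_le.1 h7⟩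
  · left; exact hx1

end Pool.Agent.Work.N81f94f
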